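import Pool.Agent.LOWD.Asm

/-!
# MP_3af9db_ag: cycles of small dimension on the zeros of polynomials of small degree over an
arbitrary base, over a finite field

`k` is a finite field, `R` a `k`-algebra of finite type, `X = zeros k f` the closed subvariety
`f_1 = ... = f_r = 0` of the affine space of dimension `n` over `Spec R`, `deg f_i ≤ d_i`.
If `l + ∑ (l + d_i - 1 choose l) < n` then the Chow groups of cycles of dimension at most `l` on
`X` are torsion, and the generalised Beilinson conjecture holds for `X` in the dimensions `j ≤ l`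
(if at least one of the numbers `d_i` is at least two).  The proof is described in `Pool/Agent/LOWD/PAPER.md`.
-/

set_option autoImplicit false

universe v

namespace Pool.Agent.Results.MP_3af9db_ag.LowDegreeEquations

open AlgebraicGeometry Pool.Agent.Lib_helper55.Beil CUB LOWD

/-- The closed subvariety `f_1 = ... = f_r = 0` of the affine space of dimension `n` over
`Spec R`, as a variety over `k`. -/
noncomputable def zeros (k : Type) [Field k] {R : Type} [CommRing R] [Algebra k R]
    [Algebra.FiniteType k R] {n r : ℕ} (f : Fin r → MvPolynomial (Fin n) R) : Var k :=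
  aff k (MvPolynomial (Fin n) R ⧸ Ideal.span (Set.range f))

/-- The Chow groups of `X : f_1 = ... = f_r = 0` in dimension `j ≤ l` are torsion if
`l + ∑ (l + d_i - 1 choose l) < n`.  If moreover `d_i ≥ 2` for at least one `i`, then
`H_2j(X)(j) = 0`, the cycle class map is bijective onto the invariants, and the
eigenvalue one is semisimple. -/
theorem result (k E R : Type) [Field k] [Finite k] [Field E] [CharZero E] [CommRing R]
    [Algebra k R] [Algebra.FiniteType k R] (n r l : ℕ) (f : Fin r → MvPolynomial (Fin n) R)
    (d : Fin r → ℕ) (hd : ∀ i, 1 ≤ d i) (hf : ∀ i, (f i).totalDegree ≤ d i)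
    (h : l + ∑ i, (l + d i - 1).choose l < n) (j : ℕ) (hj : j ≤ l) :
    Subsingleton (Chow E j (zeros k f)) ∧
    ((∃ i, 2 ≤ d i) → ∀ T : Homology.{v} k E j,
      Subsingleton (T.H (2 * j) (zeros k f)) ∧ T.Inj (zeros k f) ∧ T.Surj (zeros k f) ∧
        T.Semisimple (zeros k f)) := by
  have h' : l + ∑ i, cnt l (d i) < n := by
    have : ∑ i, cnt l (d i) = ∑ i, (l + d i - 1).choose l := by
      apply Finset.sum_congr rfl
      intro i _
      unfold cnt
      rw [if_neg (by have := hd i; omega)]
    rw [this]
    exact h
  obtain ⟨h1, h2⟩ := LOWD.main.{v} Asm.s_ALL Asm.s_VA Asm.s_VB k E R n r l f d hf h' j hj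
  refine ⟨h1, fun hd2 T => ?_⟩
  have h3 := h2 hd hd2 T
  have h4 := surj_of_subsingleton T (zeros k f) h3
  exact ⟨h3, inj_of_subsingleton T (zeros k f) h1, h4.1, h4.2⟩

end Pool.Agent.Results.MP_3af9db_ag.LowDegreeEquations
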